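import Pool.Agent.N874.TQ.Abs
import Pool.Agent.N874.TF.Stm
import Pool.Agent.N835.PQ.Rec

/-!
# The 2-Selmer group over the extension

Project TC (helper874), after project TQ: no condition at the real places.
-/

set_option autoImplicit false
set_option linter.all false

open Polynomial IsDedekindDomain NumberField
open Pool.Agent.N783.PQ
open Pool.Agent.N874.PP (Ev Sq1 U0)
open Pool.Agent.N874.PM (Lies ev_down sq_down ev_sq ev_mul)
open Pool.Agent.N874.JM (LocF)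
open Pool.Agent.N891.PQ (exists_below not_ev_exp locIm_one ov_scale sq_two)
open Pool.Agent.N874.QM (S_SIG S_RAM S_LIE ov_val val_le val_le_int val_eq_of ov_down below_unique
  ov_prod val_lt_dvd Parts Arc arc_sq arc_mul arc_sig arc_top locIm_congr)
open Pool.Agent.N874.TQ (cnd_top q_top cnd_sq cnd_mul cnd_sig base_sq up_prime eta_unit
  val_aeval_le Cnd dens1)
open scoped Classical IntermediateField

namespace Pool.Agent.N874.TC

section one

variable {L : Type} [Field L] [NumberField L]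

/-- The local condition at the real place. -/
theorem real_locIm (hONE : S_ONE) {g : ℕ} {f : ℤ[X]} {θ : L} (hc : IsGen g f θ)
    (hirr : Irreducible (ov ℚ f)) (hmo : Mono f) (h₀ : ℚ[X]) (h1 : aeval θ h₀ ≠ 0)
    (h2 : IsSquare (Algebra.norm ℚ (aeval θ h₀))) : LocIm ℝ (ov ℝ f) (oq ℝ h₀) := by
  have e1 : (ov ℚ f).map (Rat.castHom ℝ) = ov ℝ f := by
    rw [ov, Polynomial.map_map]
    congr 1
  have hroot : aeval θ (ov ℚ f) = 0 := by
    have e : ov ℚ f = f.map (algebraMap ℤ ℚ) := by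
      unfold ov
      congr 1
    rw [e, aeval_map_algebraMap]
    exact hc.root
  have hsqf : Squarefree (ov ℝ f) := by
    rw [← e1]
    exact (hirr.separable.map (f := Rat.castHom ℝ)).squarefree
  have hcop : IsCoprime (oq ℝ h₀) (ov ℝ f) := by
    have h3 : IsCoprime (ov ℚ f) h₀ := by
      refine (hirr.coprime_iff_not_dvd).2 fun hd => h1 ?_
      obtain ⟨k, hk⟩ := hd
      rw [hk, map_mul, hroot, zero_mul]
    have h4 := (h3.map (Polynomial.mapRingHom (Rat.castHom ℝ))).symm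
    rw [Polynomial.coe_mapRingHom, e1] at h4
    exact h4
  obtain ⟨s, hs⟩ := hONE g (ov ℝ f) (oq ℝ h₀) (hc.mon.map _) (by
    rw [ov, hc.mon.natDegree_map, hc.deg]) hmo hsqf hcop (by
    rw [Pool.Agent.N835.PQ.norm_map ℝ hc h₀]
    exact h2.map (Rat.castHom ℝ))
  exact ⟨[], s, fun p hp => absurd hp (List.not_mem_nil), by
    rw [List.map_nil, List.prod_nil, mul_one]
    exact hs⟩

end one

section down

variable {L M Ω : Type} [Field L] [NumberField L] [Field M] [NumberField M]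
  [Field Ω] [NumberField Ω] [Algebra L Ω] [Algebra M Ω]

/-- From the conditions over the extension to the local condition over `ℚ`. -/
theorem arc_down' {f : ℤ[X]} {θ x : L} {g : ℕ} (hc : IsGen g f θ)
    (hmin : minpoly M (algebraMap L Ω θ) = f.map (algebraMap ℤ M))
    (τ₂ : M →+* ℚ_[2]) (h : Arc M f (algebraMap L Ω θ) (algebraMap L Ω x)) :
    ∃ h₀ : ℚ[X], aeval θ h₀ = x ∧ LocIm ℚ_[2] (ov ℚ_[2] f) (oq ℚ_[2] h₀) := by
  obtain ⟨a, ha, a1, a2⟩ := h
  obtain ⟨c, hx⟩ := hc.gen x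
  set h₀ : ℚ[X] := ∑ i, C (c i) * X ^ (i : ℕ) with hh₀
  have h1 : aeval θ h₀ = x := by
    rw [hh₀, map_sum, hx]
    refine Finset.sum_congr rfl fun i _ => ?_
    rw [map_mul, map_pow, aeval_X, aeval_C]
    rfl
  have h2 : f.map (algebraMap ℤ M) ∣ a - h₀.map (algebraMap ℚ M) := by
    rw [← hmin]
    apply minpoly.dvd
    rw [map_sub, ha, aeval_map_algebraMap, aeval_algebraMap_apply, h1, sub_self]
  have key : ∀ (F : Type) [Field F] [CharZero F] (ρ : M →+* F),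
      LocIm F (ov F f) (a.map ρ) → LocIm F (ov F f) (oq F h₀) := by
    intro F _ _ ρ H
    refine locIm_congr ?_ H
    have h3 := Polynomial.map_dvd ρ h2
    rw [Polynomial.map_sub, Polynomial.map_map, Polynomial.map_map] at h3
    have e1 : ρ.comp (algebraMap ℤ M) = Int.castRingHom F := RingHom.ext_int _ _
    have e2 : ρ.comp (algebraMap ℚ M) = Rat.castHom F := RingHom.ext_rat _ _
    rw [e1, e2] at h3
    exact h3
  exact ⟨h₀, h1, key _ τ₂ (a1 τ₂)⟩

end down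

section abs

variable {L M Ω : Type} [Field L] [NumberField L] [Field M] [NumberField M]
  [Field Ω] [NumberField Ω] [Algebra L Ω] [Algebra M Ω] [IsGalois ℚ M]

theorem selM_abs (H : Parts) {g W : ℕ} {f : ℤ[X]} {θ : L} {S J : Finset ℕ} {s : ℕ → ℤ[X]}
    (hg : 1 ≤ g) (hc : IsGen g f θ) (hsq : Squarefree (dsc g f)) (hS : GoodS g W S s)
    (hcon : ∀ q ∈ S, Cg q f (X * s q)) (h2i : Irreducible (rd 2 f))
    (hQs : ∀ q ∈ S, ∀ w : HeightOneSpectrum (𝓞 M), Ov q w →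
      w.valuation M (q : M) = WithZero.exp (-1 : ℤ) ∧
      Function.Surjective ((Ideal.Quotient.mk w.asIdeal).comp (Int.castRingHom (𝓞 M))))
    (hPr : ∀ p : ℕ, p.Prime → (∃ w : HeightOneSpectrum (𝓞 M), Ov p w ∧
      w.valuation M (p : M) ≠ WithZero.exp (-1 : ℤ)) → Irreducible (rd p f))
    (hJ : J ⊆ S)
    (hθ : M⟮algebraMap L Ω θ⟯ = ⊤)
    (hmin : minpoly M (algebraMap L Ω θ) = f.map (algebraMap ℤ M))
    (τ₂ : M →+* ℚ_[2]) (hONE : S_ONE) (hmo : Mono f) (hirr : Irreducible (ov ℚ f))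
    {n : ℕ} (hM : Module.finrank ℚ M = 2 ^ n) (hΩ : Module.finrank M Ω = 2 * g + 1)
    (hsel : ∀ α : L, α ≠ 0 → IsSquare (Algebra.norm ℚ α) →
      (∀ 𝔓 : HeightOneSpectrum (𝓞 L), (∀ q ∈ J, ¬ Ov q 𝔓) → Ev 𝔓 α) →
      (∀ q ∈ J, ∀ 𝔓 : HeightOneSpectrum (𝓞 L), Ov q 𝔓 → 𝔓.valuation L θ = 1 →
        U0 𝔓 ((q : L) * θ) α) →
      (∃ h₀ : ℚ[X], aeval θ h₀ = α ∧ LocIm ℚ_[2] (ov ℚ_[2] f) (oq ℚ_[2] h₀) ∧
        LocIm ℝ (ov ℝ f) (oq ℝ h₀)) → IsSquare α)
    (h : M[X]) (hne : aeval (((∏ q ∈ J, q : ℕ) : Ω) * algebraMap L Ω θ) h ≠ 0)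
    (hN : IsSquare (Algebra.norm M (aeval (((∏ q ∈ J, q : ℕ) : Ω) * algebraMap L Ω θ) h)))
    (hloc : ∀ w : HeightOneSpectrum (𝓞 M), LocF (w.adicCompletion M)
      ((f.scaleRoots ((∏ q ∈ J, q : ℕ) : ℤ)).map (algebraMap ℤ M)) h)
    (hr : ∀ ρ : M →+* ℝ, LocIm ℝ
      (((f.scaleRoots ((∏ q ∈ J, q : ℕ) : ℤ)).map (algebraMap ℤ M)).map ρ) (h.map ρ)) :
    IsSquare (aeval (((∏ q ∈ J, q : ℕ) : Ω) * algebraMap L Ω θ) h) := by
  have hS' : ∀ q ∈ S, q.Prime := fun q hq => (hS q hq).1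
  have hD8 : (∏ q ∈ J, q) % 8 = 1 := by
    have : ∀ J' : Finset ℕ, J' ⊆ S → (∏ q ∈ J', q) % 8 = 1 := by
      intro J'
      induction J' using Finset.induction_on with
      | empty => intro _; simp
      | insert a t ha ih =>
        intro hsub
        rw [Finset.prod_insert ha, Nat.mul_mod, ih ((Finset.subset_insert _ _).trans hsub),
          (hS a (hsub (Finset.mem_insert_self _ _))).2.2.2.1]
    exact this J hJ
  -- the ramified primes and `2`
  let T : Set ℕ := {p | p = 2 ∨ (p.Prime ∧ ∃ w : HeightOneSpectrum (𝓞 M), Ov p w ∧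
      w.valuation M (p : M) ≠ WithZero.exp (-1 : ℤ))}
  have hTp : ∀ p ∈ T, p.Prime := by
    rintro p (rfl | h)
    · exact Nat.prime_two
    · exact h.1
  have hTi : ∀ p ∈ T, Irreducible (rd p f) := by
    rintro p (rfl | h)
    · exact h2i
    · exact hPr p h.1 h.2
  have hcnd := cnd_top (T := T) H.ram H.csq H.lie H.loc1 H.loc2 hg hc hsq hS hcon hθ hQs
    (Or.inl rfl) hJ hloc hne
  have harc := arc_top (θ := algebraMap L Ω θ) H.emb H.sqt hc.mon hc.deg hD8 hloc hr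
  have hgen : ∀ y : Ω, ∃ a : M[X], aeval (algebraMap L Ω θ) a = y := by
    intro y
    have h1 := IntermediateField.adjoin_simple_toSubalgebra_of_isAlgebraic
      (Algebra.IsAlgebraic.isAlgebraic (R := M) (algebraMap L Ω θ))
    rw [hθ, IntermediateField.top_toSubalgebra, Algebra.adjoin_singleton_eq_range_aeval] at h1
    have h2 : y ∈ (aeval (R := M) (algebraMap L Ω θ)).range := by
      rw [← h1]
      exact Algebra.mem_top
    exact h2
  refine H.tow n ℚ L M Ω two_ne_zero hM (by rw [hc.rank]; exact odd_two_mul_add_one g)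
    (by rw [hΩ, hc.rank])
    (fun x => Cnd J T (algebraMap L Ω θ) (algebraMap L Ω (aeval θ (derivative f))) x ∧
      Arc M f (algebraMap L Ω θ) x) (fun x hx => ⟨cnd_sq hx, arc_sq hgen x⟩)
    (fun x y hx hy h h' => ⟨cnd_mul H.cls (fun q hq => ⟨hS' q (hJ hq), ?_⟩)
      (fun q hq 𝔓 h1 h3 => ?_) hx hy h.1 h'.1, arc_mul h.2 h'.2⟩)
    (fun σ x h => ⟨cnd_sig H.sig rfl rfl σ h.1, arc_sig rfl σ h.2⟩)
    (fun x hx hC hN => ?_) _ hne ⟨hcnd, harc⟩ hN
  · have := (hS q (hJ hq)).2.2.2.1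
    omega
  · have h4 := (q_top (M := M) H.ram H.csq H.lie hg hc hsq hS hθ (hJ hq)
      (hcon q (hJ hq)) (fun w hw => (hQs q (hJ hq) w hw).1) 𝔓 h1 h3).1
    apply not_ev_exp
    rw [map_mul, h4, h3, mul_one]
  · obtain ⟨b1, b2⟩ := base_sq (T := T) (fun q hq => hS' q (hJ hq)) hTp
      (fun 𝔓 h1 h3 => by
        obtain ⟨p, hp, hp𝔓⟩ := exists_below 𝔓
        have hpT : p ∉ T := fun hp' => h1 p hp' hp𝔓
        obtain ⟨𝔓', h4, -⟩ := up_prime (M := M) (Ω := Ω) hc hθ hp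
          (fun w hw => by
            by_contra hne
            exact hpT (Or.inr ⟨hp, w, hw, hne⟩)) 𝔓 hp𝔓 h3
        exact ⟨𝔓', h4⟩)
      (fun q hq 𝔓 h1 h3 => by
        have hqS := hJ hq
        obtain ⟨𝔓', h4, w, hw, hwq⟩ := up_prime (M := M) (Ω := Ω) hc hθ (hS' q hqS)
          (fun w hw => (hQs q hqS w hw).1) 𝔓 h1
          (eta_unit H.ram hg hc hsq hS hqS (hcon q hqS) 𝔓 h1 h3)
        exact ⟨𝔓', h4, Pool.Agent.N874.TW.dens3 (K := ℚ) (𝓞 Ω) (𝓞 M) hθ 𝔓' w hw (by rw [h4, h3])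
          (dens1 w (hQs q hqS w hwq).1 (hQs q hqS w hwq).2)⟩)
      (fun 𝔮 => val_aeval_le hc 𝔮 _)
      (fun p hp => H.pi g L f θ hc p (hTp p hp) (hTi p hp))
      (H.ram g L f θ hg hc hsq)
      (H.par g L f θ hc hsq) hx hN hC.1
    obtain ⟨h₀, c1, c2⟩ := arc_down' hc hmin τ₂ hC.2
    exact hsel x hx hN b1 b2 ⟨h₀, c1, c2, real_locIm hONE hc hirr hmo h₀ (by rw [c1]; exact hx)
      (by rw [c1]; exact hN)⟩

end abs

end Pool.Agent.N874.TC
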