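import Pool.Agent.N874.TC.Fld
import Pool.Agent.N874.TQ.Cnt
import Pool.Agent.N648.TF.Famr
import Pool.Agent.N490.TF.Smlk
import Pool.Agent.N615.TF.One

/-!
# A positive proportion of all odd hyperelliptic Jacobians over `ℚ`, over many 2-extensions: counting

Project TC (helper874), after project TQ.
-/

set_option autoImplicit false
set_option linter.all false

open Polynomial IsDedekindDomain NumberField
open Pool.Agent.N783.PQ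
open Pool.Agent.N352.PJ (dd)
open Pool.Agent.N400.PQ (card_fib sum_dd ht_card ht_scale scale_inj good_card)
open Pool.Agent.N874.QM (Parts)
open Pool.Agent.N874.TQ (Tws irr_mod')
open Pool.Agent.N891.PQ (rd_congr)
open scoped Classical IntermediateField

namespace Pool.Agent.N874.TC

theorem scale_comp {K : Type} [Field K] (p : K[X]) {D : K} (hD : D ≠ 0) :
    p.scaleRoots D = C (D ^ p.natDegree) * p.comp (C D⁻¹ * X) := by
  ext i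
  rw [coeff_scaleRoots, coeff_C_mul, comp_C_mul_X_coeff]
  rcases le_or_gt i p.natDegree with h | h
  · obtain ⟨k, hk⟩ := Nat.exists_eq_add_of_le h
    rw [hk, Nat.add_sub_cancel_left, pow_add, inv_pow]
    field_simp
  · rw [coeff_eq_zero_of_natDegree_lt h, zero_mul, zero_mul, mul_zero]

theorem mono_scale {f : ℤ[X]} (hm : f.Monic) (h : Mono f) {D : ℕ} (hD : 0 < D) :
    Mono (f.scaleRoots (D : ℤ)) := by
  have hDr : (0 : ℝ) < D := by exact_mod_cast hD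
  have e : ov ℝ (f.scaleRoots (D : ℤ)) = (ov ℝ f).scaleRoots (D : ℝ) := by
    rw [ov, map_scaleRoots]
    · simp
    · rw [hm.leadingCoeff, map_one]
      exact one_ne_zero
  intro x
  rw [e, scale_comp _ hDr.ne', derivative_C_mul, derivative_comp, eval_mul, eval_mul, eval_comp,
    eval_C]
  have h1 := h (eval x (C (D : ℝ)⁻¹ * X))
  have h2 : eval x (derivative (C (D : ℝ)⁻¹ * X)) = (D : ℝ)⁻¹ := by
    rw [derivative_C_mul, derivative_X, mul_one, eval_C]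
  rw [h2]
  positivity

/-- Many polynomials of the family are not bad. -/
theorem good_card' {α : Type} {κ C m D : ℕ} {c : ℝ} (hc : 0 < c) {Fm Bm : Set α} {P : ℝ}
    (hP0 : 0 < P) (B N : ℕ)
    (hFc : c * (B : ℝ) ^ D ≤ P * (Fm.ncard : ℝ))
    (hfin : Bm.Finite)
    (hB : (2 : ℝ) ^ m * P * Bm.ncard ≤ C * 2 ^ (2 * N * D))
    (hm : 2 * (C * (4 * 2 ^ κ : ℝ) ^ D) / c < 2 ^ m)
    (hN : (4 : ℝ) ^ N ≤ 4 * (2 ^ κ * B)) :
    c / 2 * (B : ℝ) ^ D ≤ P * ((Fm \ Bm).ncard : ℝ) := by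
  have hd := Set.le_ncard_diff Bm Fm hfin
  set F' : ℕ := Fm.ncard
  set Bd' : ℕ := Bm.ncard
  set G : ℕ := (Fm \ Bm).ncard
  have hd' : (F' : ℝ) ≤ Bd' + G := by
    have : F' ≤ Bd' + G := by omega
    exact_mod_cast this
  rw [div_lt_iff₀ hc] at hm
  have h4 : (2 : ℝ) ^ (2 * N * D) ≤ (4 * 2 ^ κ : ℝ) ^ D * (B : ℝ) ^ D := by
    have e1 : (2 : ℝ) ^ (2 * N * D) = ((4 : ℝ) ^ N) ^ D := by
      rw [pow_mul, pow_mul]
      norm_num
    rw [e1, ← mul_pow]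
    exact pow_le_pow_left₀ (by positivity) (by linarith) _
  have hPB : P * (Bd' : ℝ) ≤ c / 2 * (B : ℝ) ^ D := by
    have h2r : (0 : ℝ) < 2 ^ m := by positivity
    rw [← mul_le_mul_iff_right₀ h2r]
    calc 2 ^ m * (P * (Bd' : ℝ)) = 2 ^ m * P * Bd' := by ring
      _ ≤ C * 2 ^ (2 * N * D) := hB
      _ ≤ C * ((4 * 2 ^ κ : ℝ) ^ D * (B : ℝ) ^ D) := by gcongr
      _ = (2 * (C * (4 * 2 ^ κ : ℝ) ^ D)) * ((B : ℝ) ^ D / 2) := by ring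
      _ ≤ (2 ^ m * c) * ((B : ℝ) ^ D / 2) := by gcongr
      _ = 2 ^ m * (c / 2 * (B : ℝ) ^ D) := by ring
  have : P * (F' : ℝ) ≤ P * Bd' + P * G := by
    rw [← mul_add]
    exact mul_le_mul_of_nonneg_left hd' hP0.le
  linarith

theorem mainW (H : Parts) (hONE : S_ONE) (hFAM : S_FAMR) (hBAD : S_BAD) (hEXS : S_EXS) {g : ℕ}
    (hg : 1 ≤ g) (T : Finset ℕ) (hT : ∀ p ∈ T, p.Prime) :
    ∃ S : Finset ℕ, (∀ q ∈ S, q.Prime) ∧ Disjoint S T ∧ ∃ c : ℝ, 0 < c ∧ ∃ B₀ : ℕ, ∀ B ≥ B₀,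
    {f : ℤ[X] | Ht g B f}.Finite ∧ c * ({f : ℤ[X] | Ht g B f}.ncard : ℝ) ≤
      ({f : ℤ[X] | Ht g B f ∧ Irreducible (ov ℚ f) ∧ (∀ p ∈ T, Irreducible (rd p f)) ∧
        Tws g S f ∧ Uni S f f ∧ Mono f}.ncard : ℝ) := by
  obtain ⟨W, f₁, hf₁, hWδ, hWi, c, hc, hfam⟩ := hFAM g (∑ p ∈ T, p) hg
  have hTW : ∀ p ∈ T, p ∣ W := fun p hp =>
    hWδ p (hT p hp) (Finset.single_le_sum (f := fun p => p) (fun _ _ => Nat.zero_le _) hp)
  obtain ⟨κ, htw⟩ := selM H hONE hg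
  obtain ⟨C, hbad⟩ := hBAD g κ hg
  obtain ⟨m, hm⟩ : ∃ m : ℕ, 2 * (C * (4 * 2 ^ κ : ℝ) ^ dd g) / c < 2 ^ m :=
    pow_unbounded_of_one_lt _ (by norm_num)
  obtain ⟨S, h, hS, hcard⟩ := hEXS g W hg m
  have hST : ∀ q ∈ S, ∀ p ∈ T, q ≠ p := by
    rintro q hq p hp rfl
    have h1 := Nat.le_of_dvd hf₁.pos (hTW q hp)
    exact absurd (hS q hq).2.1 (not_lt.2 h1)
  refine ⟨S, fun q hq => (hS q hq).1, Finset.disjoint_left.2 fun q hq hq' => hST q hq q hq' rfl, ?_⟩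
  obtain ⟨B₁₀, hB₁₀⟩ := hfam S h hS
  obtain ⟨N₀, hN₀⟩ := hbad W S h hS
  set Q : ℕ := ∏ q ∈ S, q with hQ
  have hq1 : ∀ q ∈ S, 1 ≤ q := fun q hq => (hS q hq).1.pos
  have hQ1 : 1 ≤ Q := Finset.one_le_prod' hq1
  set P : ℕ := ∏ q ∈ S, q ^ (2 * g) with hP
  have hP0 : (0 : ℝ) < P := by
    have : 0 < P := Finset.prod_pos fun q hq => pow_pos (hq1 q hq) _
    exact_mod_cast this
  have hQ0 : (0 : ℝ) < Q := by exact_mod_cast hQ1
  set X₀ : ℕ := max (max B₁₀ (4 ^ N₀)) 1 with hX₀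
  refine ⟨c / 2 / (P * 2 ^ m * (3 ^ (2 * g) * (2 * Q) ^ dd g)), by positivity, X₀ * Q,
    fun B hB => ?_⟩
  set B₁ : ℕ := B / Q with hB₁
  have hBX : X₀ ≤ B₁ := (Nat.le_div_iff_mul_le hQ1).2 hB
  have hb1 : 1 ≤ B₁ := (le_max_right _ _).trans hBX
  have hb2 : B₁₀ ≤ B₁ := ((le_max_left _ _).trans (le_max_left _ _)).trans hBX
  have hb3 : 4 ^ N₀ ≤ B₁ := ((le_max_right _ _).trans (le_max_left _ _)).trans hBX
  have hBQ : B₁ * Q ≤ B := Nat.div_mul_le_self B Q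
  have hBQ2 : B ≤ 2 * Q * B₁ := by
    have e1 : B < B₁ * Q + Q := by
      have := Nat.lt_div_mul_add (a := B) (b := Q) hQ1
      exact this
    nlinarith
  have hB1 : 1 ≤ B := le_trans (by nlinarith) hBQ
  obtain ⟨N, hNa, hNb⟩ : ∃ N : ℕ, 2 ^ κ * B₁ ≤ 4 ^ N ∧ 4 ^ N ≤ 4 * (2 ^ κ * B₁) := by
    refine ⟨Nat.log 4 (2 ^ κ * B₁) + 1, (Nat.lt_pow_succ_log_self (by norm_num) _).le, ?_⟩
    rw [pow_succ, mul_comm]
    refine Nat.mul_le_mul_left 4 (Nat.pow_log_le_self 4 ?_)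
    positivity
  have hNN : N₀ ≤ N := by
    have e1 : 4 ^ N₀ ≤ 4 ^ N := hb3.trans (le_trans (Nat.le_mul_of_pos_left _ (by positivity)) hNa)
    exact (Nat.pow_le_pow_iff_right (by norm_num)).1 e1
  obtain ⟨hfin, hBd⟩ := hN₀ N hNN
  refine ⟨(ht_card g B hB1).1, ?_⟩
  set Hs := {f : ℤ[X] | Ht g B f ∧ Irreducible (ov ℚ f) ∧ (∀ p ∈ T, Irreducible (rd p f)) ∧
        Tws g S f ∧ Uni S f f ∧ Mono f} with hH
  set G := {f : ℤ[X] | Fam g B₁ W f₁ S h f ∧ Mono f} \ {f : ℤ[X] | LBad g N κ S h f} with hGdef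
  have hHf : Hs.Finite := (ht_card g B hB1).1.subset fun f hf => hf.1
  have hGf : G.Finite := (ht_card g B₁ hb1).1.subset fun f hf => hf.1.1.ht
  have hGc : c / 2 * (B₁ : ℝ) ^ dd g ≤ P * (G.ncard : ℝ) := by
    refine good_card' (C := C) (m := m) (κ := κ) hc hP0 B₁ N (hB₁₀ B₁ hb2) hfin ?_ hm ?_
    · rw [hcard] at hBd
      exact_mod_cast hBd
    · exact_mod_cast hNb
  have hJ0 : ∀ J ⊆ S, ((∏ q ∈ J, q : ℕ) : ℤ) ≠ 0 := by
    intro J hJ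
    have : 0 < ∏ q ∈ J, q := Finset.prod_pos fun q hq => hq1 q (hJ hq)
    exact_mod_cast this.ne'
  have hcard1 := card_fib hGf hHf S (fun J f => f.scaleRoots ((∏ q ∈ J, q : ℕ) : ℤ)) (by
      intro f hf
      obtain ⟨hsqf, J, hJ, hirr, hsel⟩ := htw B₁ N W f₁ S h f hf₁ hS hf.1.1 hf.1.2 hNa hb1 hf.2
      have hDle : ∏ q ∈ J, q ≤ Q :=
        Finset.prod_le_prod_of_subset_of_one_le' hJ fun q hq _ => hq1 q hq
      refine ⟨J, hJ, ht_scale hf.1.1.ht ((Nat.mul_le_mul_left _ hDle).trans hBQ), hirr,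
        fun p hp => irr_mod' hf.1.1.ht.mon (hT p hp) (fun hpD => ?_) ?_,
        ⟨J, hJ, f, hsqf, rfl⟩, uni_self hf.1.1.ht.mon hsel,
        mono_scale hf.1.1.ht.mon hf.1.2 (Finset.prod_pos fun q hq => hq1 q (hJ hq))⟩
      · have h1 : p ∣ ∏ q ∈ J, q := Int.natCast_dvd_natCast.1 hpD
        obtain ⟨q, hq, hpq⟩ := ((hT p hp).prime.dvd_finset_prod_iff _).1 h1
        have : p = q := (Nat.prime_dvd_prime_iff_eq (hT p hp) (hS q (hJ hq)).1).1 hpq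
        exact hST q (hJ hq) p hp this.symm
      · rw [rd_congr hf.1.1.one (hTW p hp)]
        exact hWi p (hT p hp) (hTW p hp)) (by
      intro J hJ x hx y hy hxy
      exact scale_inj (hJ0 J hJ) (by rw [hx.1.1.ht.deg, hy.1.1.ht.deg]) hxy)
  rw [hcard] at hcard1
  have hcard' : (G.ncard : ℝ) ≤ 2 ^ m * Hs.ncard := by exact_mod_cast hcard1
  have hM' : ({f : ℤ[X] | Ht g B f}.ncard : ℝ) ≤
      3 ^ (2 * g) * (2 * Q) ^ dd g * (B₁ : ℝ) ^ dd g := by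
    have e1 : ({f : ℤ[X] | Ht g B f}.ncard : ℝ) ≤ 3 ^ (2 * g) * (B : ℝ) ^ dd g := by
      exact_mod_cast (ht_card g B hB1).2
    refine e1.trans ?_
    rw [mul_assoc, ← mul_pow]
    have e2 : (B : ℝ) ≤ 2 * Q * B₁ := by exact_mod_cast hBQ2
    gcongr
  calc c / 2 / (P * 2 ^ m * (3 ^ (2 * g) * (2 * Q) ^ dd g)) *
        ({f : ℤ[X] | Ht g B f}.ncard : ℝ)
      ≤ c / 2 / (P * 2 ^ m * (3 ^ (2 * g) * (2 * Q) ^ dd g)) *
        (3 ^ (2 * g) * (2 * Q) ^ dd g * (B₁ : ℝ) ^ dd g) :=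
        mul_le_mul_of_nonneg_left hM' (by positivity)
    _ = c / 2 * (B₁ : ℝ) ^ dd g / (P * 2 ^ m) := by
        field_simp
    _ ≤ (P * (G.ncard : ℝ)) / (P * 2 ^ m) := by gcongr
    _ ≤ (P * (2 ^ m * Hs.ncard)) / (P * 2 ^ m) := by gcongr
    _ = Hs.ncard := by field_simp

/-- The theorem on the explicit 2-Selmer groups. -/
theorem final {g : ℕ} (hg : 1 ≤ g) (T : Finset ℕ) (hT : ∀ p ∈ T, p.Prime) :
    ∃ S : Finset ℕ, (∀ q ∈ S, q.Prime) ∧ Disjoint S T ∧ ∃ c : ℝ, 0 < c ∧ ∃ B₀ : ℕ, ∀ B ≥ B₀,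
    {f : ℤ[X] | Ht g B f}.Finite ∧ c * ({f : ℤ[X] | Ht g B f}.ncard : ℝ) ≤
      ({f : ℤ[X] | Ht g B f ∧ Irreducible (ov ℚ f) ∧ (∀ p ∈ T, Irreducible (rd p f)) ∧
        Tws g S f ∧ Uni S f f ∧ Mono f}.ncard : ℝ) :=
  mainW Pool.Agent.N874.QM.parts Pool.Agent.N615.TF.one
    (Pool.Agent.N648.TF.famr Pool.Agent.N490.TF.smlk) bad Pool.Agent.N262.PQ.exs hg T hT

end Pool.Agent.N874.TC
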