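import Pool.Agent.N874.TC.Cnt
import Pool.Agent.N874.QM.Gnu
import Pool.Agent.N874.TF.Ell
import Pool.Agent.N630.PP.GP
import Pool.Agent.N42.QM.Glf
import Pool.Agent.N521.QM.Selc
import Pool.Agent.N713.QM.GFC
import Pool.Agent.N459.QM.FinC
import Pool.Agent.N530.QM.Farc

/-!
# Elliptic curves over `ℚ` over 2-extensions, without conditions at the real places

Project TC (helper874).
-/

set_option autoImplicit false
set_option linter.all false

open Polynomial IsDedekindDomain NumberField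
open Pool.Agent.N783.PQ (Ht ov rd dsc)
open Pool.Agent.N874.PP (sW)
open Pool.Agent.TH115.GD (Pt)
open Pool.Agent.N874.QM (SelM)
open scoped Classical

namespace Pool.Agent.N874.TC

/-- The polynomial `x ^ 3 + a x + b`. -/
noncomputable def cub (a b : ℤ) : ℤ[X] := X ^ 3 + C a * X + C b

theorem cub_natDegree (a b : ℤ) : (cub a b).natDegree = 3 := by
  unfold cub; compute_degree!

theorem cub_monic (a b : ℤ) : (cub a b).Monic := by
  unfold cub; monicity!

theorem cub_coeff0 (a b : ℤ) : (cub a b).coeff 0 = b := by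
  unfold cub
  rw [coeff_add, coeff_add, coeff_X_pow, coeff_C_mul, coeff_X, coeff_C]
  norm_num

theorem cub_coeff1 (a b : ℤ) : (cub a b).coeff 1 = a := by
  unfold cub
  rw [coeff_add, coeff_add, coeff_X_pow, coeff_C_mul, coeff_X, coeff_C]
  norm_num

theorem cub_coeff2 (a b : ℤ) : (cub a b).coeff 2 = 0 := by
  unfold cub
  rw [coeff_add, coeff_add, coeff_X_pow, coeff_C_mul, coeff_X, coeff_C]
  norm_num

theorem cub_coeff3 (a b : ℤ) : (cub a b).coeff 3 = 1 := by
  unfold cub
  rw [coeff_add, coeff_add, coeff_X_pow, coeff_C_mul, coeff_X, coeff_C]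
  norm_num

theorem eq_cub {f : ℤ[X]} (hm : f.Monic) (hd : f.natDegree = 3) (h2 : f.coeff 2 = 0) :
    f = cub (f.coeff 1) (f.coeff 0) := by
  have h3 : f.coeff 3 = 1 := by
    have := hm.coeff_natDegree
    rwa [hd] at this
  refine Polynomial.ext fun n => ?_
  rcases lt_or_ge n 4 with hn | hn
  · interval_cases n
    · rw [cub_coeff0]
    · rw [cub_coeff1]
    · rw [cub_coeff2, h2]
    · rw [h3]
      have := (cub_monic (f.coeff 1) (f.coeff 0)).coeff_natDegree
      rw [cub_natDegree] at this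
      exact this.symm
  · rw [coeff_eq_zero_of_natDegree_lt (by omega), coeff_eq_zero_of_natDegree_lt (by rw [cub_natDegree]; omega)]

theorem dsc_cub (a b : ℤ) : dsc 1 (cub a b) = 4 * a ^ 3 + 27 * b ^ 2 := by
  have hm := cub_monic a b
  have hd := cub_natDegree a b
  have hd' : (cub a b).degree = 3 := by
    rw [degree_eq_natDegree hm.ne_zero, hd]; rfl
  have h1 := resultant_deriv (f := cub a b) (by rw [hd']; norm_num)
  rw [hd, discr_of_degree_eq_three hd', hm.leadingCoeff] at h1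
  unfold dsc
  change (cub a b).resultant _ 3 2 = _
  rw [h1, cub_coeff0, cub_coeff1, cub_coeff2, cub_coeff3]
  norm_num
  ring

/-- The condition on the discriminant in terms of the coefficients. -/
theorem tws_cub {S : Finset ℕ} (hS : ∀ q ∈ S, q.Prime) {a b : ℤ}
    (h : Pool.Agent.N874.TQ.Tws 1 S (cub a b)) :
    ∃ (J : Finset ℕ), J ⊆ S ∧ ∃ a₀ b₀ : ℤ, Squarefree (4 * a₀ ^ 3 + 27 * b₀ ^ 2) ∧
      a = ((∏ q ∈ J, q : ℕ) : ℤ) ^ 2 * a₀ ∧ b = ((∏ q ∈ J, q : ℕ) : ℤ) ^ 3 * b₀ := by
  obtain ⟨J, hJ, f₀, h3, h4⟩ := h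
  generalize hD : (∏ q ∈ J, q) = D at h4 ⊢
  have hD0 : (D : ℤ) ≠ 0 := by
    rw [← hD]
    exact_mod_cast (Finset.prod_ne_zero_iff.2 fun q hq => (hS q (hJ hq)).ne_zero)
  have hm₀ : f₀.Monic := (monic_scaleRoots_iff (D : ℤ)).1 (by rw [← h4]; exact cub_monic a b)
  have hd₀ : f₀.natDegree = 3 := by
    have := congrArg natDegree h4
    rw [cub_natDegree, natDegree_scaleRoots] at this
    exact this.symm
  have h2₀ : f₀.coeff 2 = 0 := by
    have := congrArg (fun p : ℤ[X] => p.coeff 2) h4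
    simp only [cub_coeff2, coeff_scaleRoots] at this
    exact (mul_eq_zero.1 this.symm).resolve_right (pow_ne_zero _ hD0)
  have he := eq_cub hm₀ hd₀ h2₀
  refine ⟨J, hJ, f₀.coeff 1, f₀.coeff 0, ?_, ?_, ?_⟩
  · rw [← dsc_cub, ← he]
    exact h3
  · have := congrArg (fun p : ℤ[X] => p.coeff 1) h4
    simp only [cub_coeff1, coeff_scaleRoots, hd₀] at this
    rw [this, hD]
    ring
  · have := congrArg (fun p : ℤ[X] => p.coeff 0) h4
    simp only [cub_coeff0, coeff_scaleRoots, hd₀] at this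
    rw [this, hD]
    ring

theorem selc : Pool.Agent.N874.QM.S_SELC :=
  Pool.Agent.N521.QM.selc
    (Pool.Agent.N42.QM.glf Pool.Agent.N630.PP.gp1 Pool.Agent.N630.PP.gp2 Pool.Agent.N630.PP.gp3
      Pool.Agent.N630.PP.gp4) Pool.Agent.N530.QM.farc Pool.Agent.N42.QM.farr

theorem cub_map (M : Type) [Field M] [NumberField M] (a b : ℤ) :
    (cub a b).map (algebraMap ℤ M) = X ^ 3 + C (a : M) * X + C (b : M) := by
  unfold cub
  simp

/-- Finiteness of the group of points. -/
theorem pts_of (M : Type) [Field M] [NumberField M] {n : ℕ} (hM : Module.finrank ℚ M = 2 ^ n)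
    {a b : ℤ} (hirr : Irreducible (ov ℚ (cub a b)))
    (hsel : SelM M ((cub a b).map (algebraMap ℤ M))) :
    Finite (Pt (sW (a : M) (b : M)) M) ∧ Odd (Nat.card (Pt (sW (a : M) (b : M)) M)) := by
  have hmK : (ov ℚ (cub a b)).Monic := (cub_monic a b).map _
  have hdK : Odd (ov ℚ (cub a b)).natDegree := by
    rw [ov, (cub_monic a b).natDegree_map, cub_natDegree]
    decide
  have hiM := Pool.Agent.N874.JM.irr_up hM hirr hmK hdK
  rw [ov, Polynomial.map_map] at hiM
  have e : (algebraMap ℚ M).comp (Int.castRingHom ℚ) = algebraMap ℤ M := RingHom.ext_int _ _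
  rw [e, cub_map] at hiM
  rw [cub_map] at hsel
  have hd := Pool.Agent.N61.PF.disc_ne hiM
  have hs := selc M _ _ hd hiM hsel
  obtain ⟨hdiv, -⟩ := Pool.Agent.N713.QM.gfc M _ _ hd hs
  exact Pool.Agent.N459.QM.finc M _ _ hd hdiv

end Pool.Agent.N874.TC
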